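import Mathlib

/-!
Repeated roots of the quadrinomials `x^n + x^m + x^k + a`, `a` rational.

The polynomial `x^45 + x^43 + x^42 + a` with `a = -2^42 / 3^45` has the double root `-2/3`.
-/

set_option autoImplicit false

namespace Pool.Agent.Results.MP_21e947_nt.NewDoubleRoot

open Polynomial

/-- There are a nonzero rational `a` and integers `n > m > k ≥ 1` such that
`x^n + x^m + x^k + a` has a complex root of multiplicity at least `2`, while `a ≠ 1` and `(n, m, k)`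
is not of the form `(d (t + u), d t, d u)` with `d ≥ 1` and `t > u ≥ 1` odd. -/
theorem result : ∃ (a : ℚ) (n m k : ℕ), a ≠ 0 ∧ 1 ≤ k ∧ k < m ∧ m < n ∧
    (∃ θ : ℂ, 2 ≤ (X ^ n + X ^ m + X ^ k + C (a : ℂ) : ℂ[X]).rootMultiplicity θ) ∧
    a ≠ 1 ∧
    ¬ ∃ d t u : ℕ, 1 ≤ d ∧ 1 ≤ u ∧ u < t ∧ Odd t ∧ Odd u ∧
      n = d * (t + u) ∧ m = d * t ∧ k = d * u := by
  refine ⟨-2 ^ 42 / 3 ^ 45, 45, 43, 42, by norm_num, by norm_num, by norm_num, by norm_num,
    ⟨-2 / 3, ?_⟩, by norm_num, ?_⟩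
  · have hne : (X ^ 45 + X ^ 43 + X ^ 42 + C (((-2 ^ 42 / 3 ^ 45 : ℚ)) : ℂ) : ℂ[X]) ≠ 0 := by
      intro h
      have h1 := congrArg (fun p : ℂ[X] => p.coeff 45) h
      simp [coeff_X_pow] at h1
    have h1 := (one_lt_rootMultiplicity_iff_isRoot hne (t := (-2 / 3 : ℂ))).2 ⟨?_, ?_⟩
    · exact h1
    · simp only [IsRoot.def, eval_add, eval_pow, eval_X, eval_C]
      push_cast
      norm_num
    · simp only [IsRoot.def, derivative_add, derivative_X_pow, derivative_C, eval_add, eval_mul,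
        eval_pow, eval_X, eval_C, eval_zero]
      norm_num
  · rintro ⟨d, t, u, -, -, -, -, -, h1, h2, h3⟩
    rw [mul_add, ← h2, ← h3] at h1
    norm_num at h1

end Pool.Agent.Results.MP_21e947_nt.NewDoubleRoot
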